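import Pool.Agent.MWLQ.StmtsA

/-!
# MWLQ, row VVD: powers of an image
-/

set_option autoImplicit false

namespace Pool.Agent.MWLQ.H14

open Pool.Agent.Helper14_MV
open Pool.Agent.Helper2_MV
open Pool.Agent.MWK (pre)
open Pool.Agent.MWGN (nn Tau gh)
open Pool.Agent.MWGQ (pw Z Gn E0 A0 P0)

theorem pw_one (a x : ℕ) : pw a [x] = List.replicate a x := by
  unfold pw
  induction a with
  | zero => rfl
  | succ a ih =>
    rw [List.replicate_succ, List.flatten_cons, ih, List.replicate_succ, List.singleton_append]

theorem pw_succ (m : ℕ) (W : List ℕ) : pw (m + 1) W = W ++ pw m W := by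
  unfold pw
  rw [List.replicate_succ, List.flatten_cons]

theorem pw_zero (W : List ℕ) : pw 0 W = [] := rfl

theorem pw_flatMap (m : ℕ) (W : List ℕ) (g : ℕ → List ℕ) :
    (pw m W).flatMap g = pw m (W.flatMap g) := by
  induction m with
  | zero => rfl
  | succ m ih => rw [pw_succ, pw_succ, List.flatMap_append, ih]

theorem dn_append (n : ℕ) (u v : List ℕ) : dn n (u ++ v) = dn n u ++ dn n v := by
  unfold dn
  rw [List.flatMap_append]

theorem dn_rep (n m c : ℕ) : dn n (List.replicate m c) = List.replicate (m * (n + 1)) c := by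
  induction m with
  | zero => simp [dn]
  | succ m ih =>
    have e : (m + 1) * (n + 1) = (n + 1) + m * (n + 1) := by ring
    rw [List.replicate_succ, e, List.replicate_add, ← ih]
    rfl

theorem vvd_l1 (h : MWGQ.PwxStmt) {n : ℕ} {β : FIC} (hG : Gn n β) (e : ℕ) :
    ∀ (v A B : List ℕ), (∀ c ∈ v, c % 5 = 4 ∨ c = e ∨ c ∈ A) →
      RR β (A ++ (v.flatMap (psi n e) ++ B)) (A ++ (dn n (v.flatMap (psi n e)) ++ B)) := by
  have hn := hG.pos
  intro v
  induction v with
  | nil => intro A B _; exact RR.refl _
  | cons c v ih =>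
    intro A B hc
    have hv : ∀ A' : List ℕ, (∀ d ∈ A, d ∈ A') → ∀ d ∈ v, d % 5 = 4 ∨ d = e ∨ d ∈ A' := by
      intro A' hA d hd
      rcases hc d (List.mem_cons_of_mem _ hd) with h1 | h1 | h1
      · exact Or.inl h1
      · exact Or.inr (Or.inl h1)
      · exact Or.inr (Or.inr (hA d h1))
    rw [List.flatMap_cons, dn_append]
    have key : RR β (A ++ (psi n e c ++ (v.flatMap (psi n e) ++ B)))
        (A ++ (dn n (psi n e c) ++ (v.flatMap (psi n e) ++ B))) := by
      by_cases hce : c = e
      · have e1 : psi n e c = [] := by simp [psi, hce]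
        rw [e1]
        exact RR.refl _
      · by_cases hc4 : c % 5 = 4
        · have e1 : psi n e c = List.replicate (n + 1) c := by simp [psi, hce, hc4]
          rw [e1, dn_rep]
          have h1 := (h n β hG).1 [c] (n + 1) ((n + 1) * (n + 1)) (by omega) (by nlinarith)
            (by
              have e2 : (n + 1) * (n + 1) = (n + 1) + n * (n + 1) := by ring
              rw [e2]
              unfold Nat.ModEq
              rw [Nat.add_mul_mod_self_left])
          rw [pw_one, pw_one] at h1
          exact (RR.refl A).append (h1.append (RR.refl _))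
        · have hcA : c ∈ A := by
            rcases hc c (by simp) with h1 | h1 | h1
            · exact absurd h1 hc4
            · exact absurd h1 hce
            · exact h1
          have e1 : psi n e c = [c] := by simp [psi, hce, hc4]
          rw [e1]
          have e2 : dn n [c] = List.replicate (n + 1) c := by simp [dn]
          rw [e2]
          obtain ⟨A1, A2, rfl⟩ := List.append_of_mem hcA
          have h1 := (h n β hG).2.1 [c] A2 1 (n + 1) (by omega) (by omega) (by
            unfold Nat.ModEq
            rw [Nat.add_mod_left])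
          rw [pw_one, pw_one] at h1
          have h2 := (RR.refl (β := β) A1).append (h1.append (RR.refl (v.flatMap (psi n e) ++ B)))
          simpa using h2
    have s2 := ih (A ++ dn n (psi n e c)) B (hv _ (fun d hd => List.mem_append_left _ hd))
    simp only [List.append_assoc] at key s2 ⊢
    exact β.trans key s2

theorem vvd_l2 (h : MWGQ.PwxStmt) {n : ℕ} {β : FIC} (hG : Gn n β) (e : ℕ) (v : List ℕ) :
    ∀ (k : ℕ) (A B : List ℕ), (∀ c ∈ v, c % 5 = 4 ∨ c = e ∨ c ∈ A) →
      RR β (A ++ (pw k (v.flatMap (psi n e)) ++ B))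
        (A ++ (pw k (dn n (v.flatMap (psi n e))) ++ B)) := by
  intro k
  induction k with
  | zero => intro A B _; exact RR.refl _
  | succ k ih =>
    intro A B hc
    rw [pw_succ, pw_succ]
    have s1 := vvd_l1 h hG e v A (pw k (v.flatMap (psi n e)) ++ B) hc
    have s2 := ih (A ++ dn n (v.flatMap (psi n e))) B (by
      intro d hd
      rcases hc d hd with h1 | h1 | h1
      · exact Or.inl h1
      · exact Or.inr (Or.inl h1)
      · exact Or.inr (Or.inr (List.mem_append_left _ h1)))
    simp only [List.append_assoc] at s1 s2 ⊢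
    exact β.trans s1 s2

theorem vvd (hP : MWGQ.PwxStmt) (hD : DdcStmt) : VvdStmt := by
  intro n β H e A v B h
  have h' : ∀ c ∈ v, c % 5 = 4 ∨ c = e ∨ c ∈ A.flatMap (psi n e) := by
    intro c hc
    rcases h c hc with h1 | h1 | h1
    · exact Or.inl h1
    · exact Or.inr (Or.inl h1)
    · by_cases h4 : c % 5 = 4
      · exact Or.inl h4
      · by_cases he : c = e
        · exact Or.inr (Or.inl he)
        · refine Or.inr (Or.inr (List.mem_flatMap.2 ⟨c, h1, ?_⟩))
          simp [psi, he, h4]
  simp only [List.flatMap_append, pw_flatMap]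
  have s1 := vvd_l1 hP H e v (A.flatMap (psi n e)) (B.flatMap (psi n e)) h'
  have s2 := (hD n β H (v.flatMap (psi n e)) [] (A.flatMap (psi n e)) (B.flatMap (psi n e))).2.1
  have s3 := vvd_l2 hP H e v (n + 1) (A.flatMap (psi n e)) (B.flatMap (psi n e)) h'
  exact β.trans s1 (β.trans s2 s3.symm)

end Pool.Agent.MWLQ.H14
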